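import Pool.Agent.Helper71.CK.Goals

set_option autoImplicit false

namespace Pool.Agent.Helper88.CK

open Pool.Agent.CK

theorem sh_single (s a b : ℤ) : sh s (Finsupp.single a b) = Finsupp.single (a + s) b := by
  simp [sh, Finsupp.mapDomain_single]

theorem sh_apply (s z : ℤ) (f : ℤ →₀ ℤ) : sh s f z = f (z - s) := by
  have hinj : Function.Injective (fun z : ℤ => z + s) := fun a b h => by simpa using h
  have h := Finsupp.mapDomain_apply hinj f (z - s)
  simp only [sub_add_cancel] at h
  simpa [sh] using h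

theorem sig_add (f g : ℤ →₀ ℤ) : sig (f + g) = sig f + sig g := by
  unfold sig
  exact Finsupp.sum_add_index' (fun _ => rfl) (fun _ _ _ => rfl)

theorem mu_add (f g : ℤ →₀ ℤ) : mu (f + g) = mu f + mu g := by
  unfold mu
  exact Finsupp.sum_add_index' (fun _ => by simp) (fun _ _ _ => by ring)

theorem sig_zero : sig 0 = 0 := by simp [sig]
theorem mu_zero : mu 0 = 0 := by simp [mu]

theorem sig_neg (f : ℤ →₀ ℤ) : sig (-f) = - sig f := by
  have h := sig_add f (-f)
  rw [add_neg_cancel, sig_zero] at h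
  linarith

theorem mu_neg (f : ℤ →₀ ℤ) : mu (-f) = - mu f := by
  have h := mu_add f (-f)
  rw [add_neg_cancel, mu_zero] at h
  linarith

theorem sig_sub (f g : ℤ →₀ ℤ) : sig (f - g) = sig f - sig g := by
  rw [sub_eq_add_neg, sig_add, sig_neg]; ring

theorem mu_sub (f g : ℤ →₀ ℤ) : mu (f - g) = mu f - mu g := by
  rw [sub_eq_add_neg, mu_add, mu_neg]; ring

theorem nrm_eq (f : ℤ →₀ ℤ) (S : Finset ℤ) (h : f.support ⊆ S) :
    nrm f = ∑ z ∈ S, (f z).natAbs := by
  unfold nrm
  exact Finsupp.sum_of_support_subset f h _ (by simp)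

theorem nrm_add (f g : ℤ →₀ ℤ) : nrm (f + g) ≤ nrm f + nrm g := by
  classical
  have h1 : f.support ⊆ f.support ∪ g.support := Finset.subset_union_left
  have h2 : g.support ⊆ f.support ∪ g.support := Finset.subset_union_right
  rw [nrm_eq (f + g) (f.support ∪ g.support) Finsupp.support_add, nrm_eq f _ h1, nrm_eq g _ h2,
    ← Finset.sum_add_distrib]
  refine Finset.sum_le_sum (fun z _ => ?_)
  rw [Finsupp.add_apply]
  exact Int.natAbs_add_le _ _

theorem nrm_neg (f : ℤ →₀ ℤ) : nrm (-f) = nrm f := by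
  have h : (-f).support ⊆ f.support := by rw [Finsupp.support_neg]
  rw [nrm_eq (-f) f.support h, nrm_eq f f.support (Finset.Subset.refl _)]
  simp

theorem nrm_sub (f g : ℤ →₀ ℤ) : nrm (f - g) ≤ nrm f + nrm g := by
  rw [sub_eq_add_neg]
  exact (nrm_add f (-g)).trans (by rw [nrm_neg])

theorem nrm_sh (s : ℤ) (f : ℤ →₀ ℤ) : nrm (sh s f) = nrm f := by
  have hinj : Function.Injective (fun z : ℤ => z + s) := fun a b h => by simpa using h
  unfold nrm
  have h : (sh s f) = Finsupp.mapDomain (fun z : ℤ => z + s) f := rfl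
  rw [h]
  exact Finsupp.sum_mapDomain_index_inj hinj

theorem sig_sh (s : ℤ) (f : ℤ →₀ ℤ) : sig (sh s f) = sig f := by
  have hinj : Function.Injective (fun z : ℤ => z + s) := fun a b h => by simpa using h
  unfold sig
  have h : (sh s f) = Finsupp.mapDomain (fun z : ℤ => z + s) f := rfl
  rw [h]
  exact Finsupp.sum_mapDomain_index_inj hinj

theorem mu_sh (s : ℤ) (f : ℤ →₀ ℤ) : mu (sh s f) = mu f + s * sig f := by
  have hinj : Function.Injective (fun z : ℤ => z + s) := fun a b h => by simpa using h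
  have h : (sh s f) = Finsupp.mapDomain (fun z : ℤ => z + s) f := rfl
  have h1 : mu (sh s f) = f.sum (fun z x => (z + s) * x) := by
    unfold mu
    rw [h]
    exact Finsupp.sum_mapDomain_index_inj (h := fun z x => z * x) hinj
  rw [h1]
  unfold mu sig Finsupp.sum
  rw [Finset.mul_sum, ← Finset.sum_add_distrib]
  exact Finset.sum_congr rfl (fun z _ => by ring)

theorem abs_sig_le (f : ℤ →₀ ℤ) : (sig f).natAbs ≤ nrm f := by
  unfold sig nrm Finsupp.sum
  exact Int.natAbs_sum_le _ _

theorem fs : S_FS := by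
  refine ⟨fun s z f => sh_apply s z f, ?_, ?_, nrm_sh, nrm_add, nrm_sub, nrm_neg, ?_, sig_sh,
    abs_sig_le, ?_, mu_sh, ?_⟩
  · intro f
    ext z
    rw [sh_apply, sub_zero]
  · intro s t f
    ext z
    rw [sh_apply, sh_apply, sh_apply]
    congr 1
    ring
  · exact fun f g => ⟨sig_add f g, sig_sub f g, sig_neg f⟩
  · exact fun f g => ⟨mu_add f g, mu_sub f g, mu_neg f⟩
  · intro x
    constructor
    · simp [nrm, Finsupp.sum_single_index]
    · simp [sig, Finsupp.sum_single_index]

end Pool.Agent.Helper88.CK
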